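import Pool.Agent.N207.AX.Conj
import Pool.Agent.N207.AX.Exp
import Pool.Agent.N227.CF.Low
import Pool.Agent.N603.AX.VAR
import Pool.Agent.TH813.EKPer
import Pool.Agent.N301.AX.IND
import Pool.Agent.N878.AX.LINE

/-!
# The period conjecture for 1-motives at all conjugates of the points of families over a number field

Let `K` be a number field, `E` a family of elliptic curves with nonconstant invariant `j` over a variety over `K` with
coordinates in the affine space `A ^ X` (of any dimension), `P_1, …, P_r` sections of `E` (independent modulo torsion)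
and `β_1, …, β_s` functions (multiplicatively independent modulo constants), all algebraic over the rational functions.
A point `x` with coordinates in `K` gives the 1-motive `M_x = [ℤ → E_x^r × G_m^s]` over a finite extension of `K`, and
its conjugates for all embeddings `φ` of `K`. The periods of `φ(M_x)` are the periods and quasi-periods `ω₁, ω₂, η₁, η₂` of
`φ(E_x)`, with Legendre's relation `ω₂ η₁ - ω₁ η₂ = ± 2 π i`, the elliptic logarithms `p_i` of `P_i` and the integrals
`ζ(p_i)` of the second kind, and the logarithms `t_k` of `β_k`. For the sum of the motives `φ(M_x)`, that is for the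
restriction of scalars of `M_x` to the rational numbers, the dimension of the motivic Galois group is in general
`1 + (3 + 2 r + s) [K : ℚ]`, and the period conjecture says that the `(3 + 2 r + s) [K : ℚ]` numbers

  `ω₁, ω₂, η₁, p_i, ζ(p_i), t_k` for all embeddings `φ`

are algebraically independent over `ℚ(π)`. We show that they have no relation of growing degree and height, relative to
arbitrary constants (for instance the powers of `π`), for 100 percent of the points `x` with given denominators.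
-/

set_option autoImplicit false

open Filter NumberField
open scoped PeriodPair

namespace Pool.Agent.Results.MP_ae0f86_nt.ConjugateOneMotives

/-- The Weierstrass zeta function `ζ(z) = ∑ (1/(z-l) + 1/l + z/l²)`, the sum over the lattice (the summand of
`l = 0` is `1/z`, since `1/0 = 0` in Lean). -/
noncomputable def ζ (L : PeriodPair) (z : ℂ) : ℂ :=
  ∑' l : L.lattice, (1 / (z - l) + 1 / l + z / l ^ 2)

/-- `f` satisfies on `U` a polynomial equation over the polynomials in the coordinates -/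
def Algebraic {X : Type} (U : Set (X → ℂ)) (f : (X → ℂ) → ℂ) : Prop :=
  ∃ Q : Polynomial (MvPolynomial X ℂ), Q ≠ 0 ∧ ∀ z ∈ U, Q.eval₂ (MvPolynomial.eval z) (f z) = 0

/-- A family of lattices `Λ z` with algebraic invariants, whose periods depend analytically on `z`, with elliptic
logarithms `p_i` of algebraic points and logarithms `t_k` of algebraic functions, depending on several parameters. -/
structure Family {X : Type} [Fintype X] {r s : ℕ} (U : Set (X → ℂ)) (Λ : (X → ℂ) → PeriodPair)
    (p : Fin r → (X → ℂ) → ℂ) (t : Fin s → (X → ℂ) → ℂ) : Prop where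
  isOpen : IsOpen U
  isPreconnected : IsPreconnected U
  nonempty : U.Nonempty
  analytic₁ : AnalyticOnNhd ℂ (fun z => (Λ z).ω₁) U
  analytic₂ : AnalyticOnNhd ℂ (fun z => (Λ z).ω₂) U
  algebraic_g₂ : Algebraic U (fun z => (Λ z).g₂)
  algebraic_g₃ : Algebraic U (fun z => (Λ z).g₃)
  /-- the quotient of the periods is not constant -/
  nonconstant : ∀ c : ℂ, ∃ z ∈ U, (Λ z).ω₂ / (Λ z).ω₁ ≠ c
  analytic_p : ∀ i, AnalyticOnNhd ℂ (p i) U
  p_notMem : ∀ i, ∀ z ∈ U, p i z ∉ (Λ z).lattice
  algebraic_wp : ∀ i, Algebraic U (fun z => ℘[Λ z] (p i z))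
  analytic_t : ∀ k, AnalyticOnNhd ℂ (t k) U
  algebraic_exp : ∀ k, Algebraic U (fun z => Complex.exp (t k z))
  /-- the points are independent modulo torsion -/
  independent_p : ∀ n : Fin r → ℤ, (∀ z ∈ U, ∑ i, (n i : ℂ) * p i z ∈ (Λ z).lattice) → n = 0
  /-- no nontrivial combination with integral coefficients of the `t_k` is constant -/
  independent_t : ∀ (m : Fin s → ℤ) (b : ℂ), (∀ z ∈ U, ∑ k, (m k : ℂ) * t k z = b) → m = 0

/-- The `3 + 2 r + s` functions `ω₁, ω₂, η₁ = 2 ζ(ω₁ / 2)`, `p_i`, `ζ(p_i)`, `t_k` -/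
noncomputable def value {X : Type} {r s : ℕ} (Λ : (X → ℂ) → PeriodPair) (p : Fin r → (X → ℂ) → ℂ)
    (t : Fin s → (X → ℂ) → ℂ) : Fin 3 ⊕ (Fin r ⊕ (Fin r ⊕ Fin s)) → (X → ℂ) → ℂ
  | Sum.inl j, z => ![(Λ z).ω₁, (Λ z).ω₂, 2 * ζ (Λ z) ((Λ z).ω₁ / 2)] j
  | Sum.inr (Sum.inl i), z => p i z
  | Sum.inr (Sum.inr (Sum.inl i)), z => ζ (Λ z) (p i z)
  | Sum.inr (Sum.inr (Sum.inr k)), z => t k z

/-- the points of norm at most `k` at distance at least `1 / k` from the complement of `U` -/
def Inner {X : Type} [Fintype X] (U : Set (X → ℂ)) (k : ℕ) : Set (X → ℂ) := {z | ‖z‖ ≤ k ∧ Metric.ball z (k : ℝ)⁻¹ ⊆ U}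

/-- the points with integral coordinates in `K` all of whose conjugates are at most `T` in absolute value -/
def Points (K X : Type) [Field K] [NumberField K] (T : ℝ) : Set (X → 𝓞 K) := {a | ∀ j, house (a j : K) ≤ T}

variable {K X : Type} [Field K] [NumberField K] [Fintype X]

/-- **The exceptional points**: `s` in `K ^ X`, all of whose conjugates `φ s` are in the compact sets `Inner (U φ) k`,
such that some nonzero polynomial `R` of partial degrees at most `k`, whose coefficients are combinations `∑ ξ i * c i`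
with integers `c i` of `L` all of whose conjugates are at most `T ^ k`, vanishes at the numbers `f φ y (φ s)`, `φ`
running through the embeddings of `K` -/
def Exceptional {σ : Type} (U : (K →+* ℂ) → Set (X → ℂ)) (f : (K →+* ℂ) → σ → (X → ℂ) → ℂ) (L : Type) [Field L]
    [NumberField L] (io : L →+* ℂ) (k : ℕ) (ξ : Fin k → ℂ) (T : ℝ) : Set (X → K) :=
  {s | (∀ φ : K →+* ℂ, (fun j => φ (s j)) ∈ Inner (U φ) k) ∧
    ∃ R : MvPolynomial ((K →+* ℂ) × σ) ℂ, R ≠ 0 ∧ (∀ y, R.degreeOf y ≤ k) ∧
    (∀ m, ∃ c : Fin k → 𝓞 L, (∀ i (φ : L →+* ℂ), ‖φ (c i : L)‖ ≤ T ^ (k : ℝ)) ∧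
      R.coeff m = ∑ i, ξ i * io (c i : L)) ∧
    MvPolynomial.eval (fun q => f q.1 q.2 fun j => q.1 (s j)) R = 0}

/-- the names of the functions among the general ones -/
def B {r s : ℕ} : Fin 3 ⊕ (Fin r ⊕ (Fin r ⊕ Fin s)) → Y776.Cv.Nv r s
  | Sum.inl j => Sum.inl (Fin.castLE (by norm_num) j)
  | Sum.inr (Sum.inl i) => Sum.inr (Sum.inl i)
  | Sum.inr (Sum.inr (Sum.inl i)) => Sum.inr (Sum.inr (Sum.inl i))
  | Sum.inr (Sum.inr (Sum.inr k)) => Sum.inr (Sum.inr (Sum.inr (Sum.inr (Sum.inl k))))

theorem value_eq {X : Type} {r s : ℕ} (Λ : (X → ℂ) → PeriodPair) (p : Fin r → (X → ℂ) → ℂ)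
    (t : Fin s → (X → ℂ) → ℂ) (y : Fin 3 ⊕ (Fin r ⊕ (Fin r ⊕ Fin s))) :
    N207.AX.yw Λ p t (B y) = value Λ p t y := by
  rcases y with j | i | i | k
  · fin_cases j
    · rfl
    · rfl
    · funext z
      exact Pool.Agent.TH813.Ell.eta_half (Λ z).ω₁_mem_lattice (Pool.Agent.TH813.Ell.half₁ (Λ z))
  · rfl
  · rfl
  · rfl

theorem Family.an {X : Type} [Fintype X] {r s : ℕ} {U : Set (X → ℂ)} {Λ : (X → ℂ) → PeriodPair}
    {p : Fin r → (X → ℂ) → ℂ} {t : Fin s → (X → ℂ) → ℂ} (h : Family U Λ p t)
    (y : Fin 3 ⊕ (Fin r ⊕ (Fin r ⊕ Fin s))) : AnalyticOnNhd ℂ (value Λ p t y) U := by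
  rw [← value_eq]
  exact N603.AX.yw_an h.analytic₁ h.analytic₂ h.analytic_p h.p_notMem h.analytic_t _

/-- the `3 + 2 r + s` functions are algebraically independent over the rational functions -/
theorem independent {X : Type} [Fintype X] {r s : ℕ} {U : Set (X → ℂ)} {Λ : (X → ℂ) → PeriodPair}
    {p : Fin r → (X → ℂ) → ℂ} {t : Fin s → (X → ℂ) → ℂ} (h : Family U Λ p t) :
    N207.AX.Ind U (value Λ p t) := by
  obtain ⟨e, he, hI⟩ := N603.AX.var (N301.AX.ind N878.AX.line) X r s U Λ p t h.isOpen h.isPreconnected h.nonempty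
    h.analytic₁ h.analytic₂ h.nonconstant h.analytic_p h.p_notMem h.independent_p h.analytic_t h.independent_t
  have hcard : Fintype.card (Fin (3 + (s + 2 * r))) = Fintype.card (Fin 3 ⊕ (Fin r ⊕ (Fin r ⊕ Fin s))) := by
    simp only [Fintype.card_fin, Fintype.card_sum]
    ring
  let g : Fin (3 + (s + 2 * r)) ≃ Fin 3 ⊕ (Fin r ⊕ (Fin r ⊕ Fin s)) := Fintype.equivOfCardEq hcard
  have hs : ∀ y : Fin 3 ⊕ (Fin r ⊕ (Fin r ⊕ Fin s)), ∃ k, B (g k) = (B y : Y776.Cv.Nv r s) :=
    fun y => ⟨g.symm y, by rw [g.apply_symm_apply]⟩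
  have h1 := N207.AX.exch (f := N207.AX.yw Λ p t) (b := fun k => B (g k)) he hI (by
    rintro (j | i | i | i | k | k)
    · fin_cases j
      · exact Or.inl (hs (Sum.inl 0))
      · exact Or.inl (hs (Sum.inl 1))
      · exact Or.inl (hs (Sum.inl 2))
      · exact Or.inr h.algebraic_g₂
      · exact Or.inr h.algebraic_g₃
    · exact Or.inl (hs (Sum.inr (Sum.inl i)))
    · exact Or.inl (hs (Sum.inr (Sum.inr (Sum.inl i))))
    · exact Or.inr (h.algebraic_wp i)
    · exact Or.inl (hs (Sum.inr (Sum.inr (Sum.inr k))))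
    · exact Or.inr (h.algebraic_exp k))
  have h2 := h1.comp g.symm.injective
  have h3 : (fun k => N207.AX.yw Λ p t (B (g (g.symm k)))) = value Λ p t := by
    funext k
    rw [g.apply_symm_apply, value_eq]
  rw [h3] at h2
  exact h2

/-- **The period conjecture for all conjugates of 1-motives at almost all points.** Let `K` be a number field and let a
family of lattices with `r` elliptic logarithms and `s` logarithms as above be given for every complex embedding `φ`
of `K` (there is no condition between different `φ`).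

There are `ω → ∞` and `C` such that for all large `T`, all number fields `L` of degree at most `ω T`, with an embedding
in the complex numbers such that `L` contains all conjugates of `K`, all complex numbers `ξ i`, `i < ω T`, and all
integral points `b` of `K` of house at most `T` with nonzero coordinates, the proportion of the integral points `x` of
`K` of house at most `T` such that `x / b` is exceptional is at most `C T ^ (-1 + 2 / ω T)`. So for 100 percent of the
points `x / b` the `(3 + 2 r + s) [K : ℚ]` numbers have no nonzero polynomial relation of growing degree and height,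
relative to arbitrary constants. -/
theorem result (K X : Type) [Field K] [NumberField K] [Fintype X] [DecidableEq X] [Nonempty X] (r s : ℕ)
    (U : (K →+* ℂ) → Set (X → ℂ)) (Λ : (K →+* ℂ) → (X → ℂ) → PeriodPair)
    (p : (K →+* ℂ) → Fin r → (X → ℂ) → ℂ) (t : (K →+* ℂ) → Fin s → (X → ℂ) → ℂ)
    (h : ∀ φ, Family (U φ) (Λ φ) (p φ) (t φ)) :
    ∃ (ω : ℝ → ℕ) (C T₀ : ℝ), Tendsto ω atTop atTop ∧ Monotone ω ∧ ∀ T, T₀ ≤ T → 0 < ω T ∧
      (Points K X T).Finite ∧ (Points K X T).Nonempty ∧
      ∀ (L : Type) [Field L] [NumberField L], Module.finrank ℚ L ≤ ω T → ∀ io : L →+* ℂ,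
        (∀ φ : K →+* ℂ, ∃ φ' : K →+* L, io.comp φ' = φ) →
        ∀ (ξ : Fin (ω T) → ℂ), ∀ b ∈ Points K X T, (∀ j, b j ≠ 0) →
          ({x ∈ Points K X T | (fun j => (x j : K) / (b j : K)) ∈
              Exceptional U (fun φ => value (Λ φ) (p φ) (t φ)) L io (ω T) ξ T}.ncard : ℝ) ≤
            C * T ^ (-1 + 2 / (ω T : ℝ)) * (Points K X T).ncard := by
  classical
  obtain ⟨c, C₁, hc, hC₁, hlow⟩ := N227.CF.low K X
  obtain ⟨ω, C, T₀, hC, h1, h2, h3⟩ := N207.AX.conj_ind (fun φ => (h φ).isPreconnected)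
    (fun φ => (h φ).isOpen) (fun φ => (h φ).nonempty) (fun φ => (h φ).an) (fun φ => independent (h φ))
  refine ⟨ω, C / c, max T₀ 1, h1, h2, fun T hT => ⟨(h3 T ((le_max_left _ _).trans hT)).1, ?_, ?_, ?_⟩⟩
  · exact (hlow T ((le_max_right _ _).trans hT)).1
  · refine ⟨0, fun j => ?_⟩
    have h5 : ((0 : X → 𝓞 K) j : K) = 0 := by simp
    have h6 : house (0 : K) = 0 := by simp [house]
    rw [h5, h6]
    exact zero_le_one.trans ((le_max_right _ _).trans hT)
  · intro L _ _ hL io hemb ξ b hb hb0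
    have hT1 : 1 ≤ T := (le_max_right _ _).trans hT
    have hTp : 0 < T := by linarith
    obtain ⟨-, h4⟩ := (h3 T ((le_max_left _ _).trans hT)).2 L hL io hemb ξ b (fun j => ⟨hb0 j, hb j⟩)
    obtain ⟨-, h5, -⟩ := hlow T hT1
    have h6 : ({x ∈ Points K X T | (fun j => (x j : K) / (b j : K)) ∈
              Exceptional U (fun φ => value (Λ φ) (p φ) (t φ)) L io (ω T) ξ T}.ncard : ℝ) ≤
        C * T ^ ((Module.finrank ℚ K * Fintype.card X : ℝ) - 1 + 2 * ((ω T : ℝ)⁻¹)) := h4
    refine h6.trans ?_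
    have h7 : (T : ℝ) ^ ((Module.finrank ℚ K * Fintype.card X : ℝ) - 1 + 2 * ((ω T : ℝ)⁻¹)) =
        T ^ (-1 + 2 / (ω T : ℝ)) * T ^ (Module.finrank ℚ K * Fintype.card X) := by
      rw [← Real.rpow_natCast T (Module.finrank ℚ K * Fintype.card X), ← Real.rpow_add hTp]
      congr 1
      push_cast
      ring
    rw [h7]
    have h8 : T ^ (Module.finrank ℚ K * Fintype.card X) ≤ ((Points K X T).ncard : ℝ) / c := by
      rw [le_div_iff₀ hc, mul_comm]
      exact h5
    calc C * (T ^ (-1 + 2 / (ω T : ℝ)) * T ^ (Module.finrank ℚ K * Fintype.card X)) ≤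
          C * (T ^ (-1 + 2 / (ω T : ℝ)) * (((Points K X T).ncard : ℝ) / c)) :=
          mul_le_mul_of_nonneg_left (mul_le_mul_of_nonneg_left h8 (by positivity)) hC
      _ = _ := by ring

end Pool.Agent.Results.MP_ae0f86_nt.ConjugateOneMotives
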