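import Pool.Agent.N192.GC.JGrp

set_option autoImplicit false

/-!
# Points of abelian varieties and the period torsor of an arbitrary motive

Let `M = [ℤ^n → G]` be a 1-motive over the field `ℚ̄` of algebraic numbers, where `G` is an extension of
an abelian variety `A` by a torus. It is given by algebraic points `P_i = exp(u_i)` of `A`, algebraic
points `Q_l = φ(exp(v_l))` of the dual abelian variety (`φ` is the polarization), and algebraic points of
the extension, with logarithms `ℓ_il`. Its periods are `2 π i`, the periods and quasi-periods of `A`,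
the integrals `u_i` and `h_k(u_i)` of the first and second kind, the periods
`∑ k, (h_k(v_l) λ_k - v_lk η_k)` and the integrals `ℓ_il` of the third kind (`periodMatrix`). Let `N`
be **any** motive over `ℚ̄` (a Nori motive, pure or mixed), or any de Rham-Betti structure `V`
(`Structure`), of rank `d`. We show that the part of the period torsor of `M ⊕ N` which belongs to the
unipotent radical of the Galois group of `M` is independent of `N`, as soon as the points `P_i`, `Q_l`
are not related to a **finite** set of exceptional points, which depends only on `N`; and **for almost all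
abelian varieties there are no exceptional points**. There is no condition on the abelian varieties: their
Hodge groups may be arbitrary, also with complex multiplication. Nothing is assumed about periods.

**Theorem.** Let `A i`, `i ∈ I`, be abelian varieties over `ℚ̄`; the set `I` may be infinite, for example
all abelian varieties. Let `V` be any de Rham-Betti structure of rank `d`. There are subspaces `Γ i` over
`ℚ` of the tangent spaces of the `A i` (the logarithms of the *exceptional points*) such that
* (a) `Γ i` is of finite dimension, it contains the lattice, that is, the torsion points, and it is stable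
  under the endomorphisms of `A i` (`IsExceptional`);
* (b) let `A i`, `i ∈ S`, be finitely many of the abelian varieties, without homomorphisms between them,
  let `P i` be a tuple of exceptional points of `A i`, and let `B i` be the smallest abelian subvariety
  of `(A i)^(m i)` which contains a multiple of the point `P i`. Then `∑ 2 dim (B i) ≤ d²` (`FewPoints`;
  `H_1(B i, ℂ)` is the space `Relations` of the vectors in `H_1(A i, ℂ)^(m i)` which satisfy all linear
  relations with coefficients in `End(A i)` which hold for the points);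
* (c) in particular the simple abelian varieties `A i`, up to isogeny, with exceptional points which are
  not torsion points satisfy `∑ 2 dim (A i) ≤ d²` (`FewExceptions`);
* (d) let `M a` be finitely many 1-motives over abelian varieties `A (e a)` without homomorphisms between
  them. Assume that the points `P_i` and `Q_l` of `M a` are linearly independent over `End(A (e a))`
  modulo `Γ (e a)` (`Independent`). Let `x` be **any** automorphism of `⊕ H_1(M a, ℂ)`, given by
  automorphisms of the `H_1(M a, ℂ)` which act trivially on the graded pieces of the weight filtration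
  (`IsUnipotent`). Then `x ⊕ 1` is contained in each algebraic group `G ⊆ GL(H_B(⊕ M a ⊕ V))` over `ℚ`
  with a torsor over `ℚ̄` which contains the comparison isomorphism of `⊕ M a ⊕ V` (`GenericSplit`);
* (e) let the `M a` be arbitrary 1-motives over such abelian varieties, without any condition on the
  points. For all vectors `z a ∈ H_1(A (e a), ℂ)^(n + s)` which satisfy the linear relations over
  `End(A (e a))` between the points modulo `Γ (e a)` there is a unipotent `x` as in (d), whose part of
  weight `-1` is given by the `z a` (`HasWeightOne`), such that `x ⊕ 1` is contained in all these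
  groups `G` (`RelationsSplit`).

## What this says about the period conjecture

Let `G_dRB(N)` be the smallest group `G` with a torsor over `ℚ̄` which contains the comparison isomorphism
of `N`. Grothendieck's conjecture for `N` says that the comparison isomorphism is a generic point of the
torsor of the motivic Galois group; in particular `G_dRB(N) = G_mot(N)` (André: `Ω^dRB = Ω^mot`). We have
`G_mot(M) = MT(M)` for 1-motives (Brylinski, André). Let `U` be the unipotent radical of `MT(M)`. The
quotient of `U` of weight `-1` is `H_1(B)`, where `B` is the smallest abelian subvariety of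
`A^n × (A^∨)^s` which contains a multiple of the point `(P, Q)`. Let `T(M)` be the mixed Tate part
of `⟨M⟩`, a Kummer motive `[ℤ^a → G_m^b]`; its kernel in `U` is generated by the part of weight `-1` and
its commutators. Let `K` be the group of the `x` such that `x ⊕ 1` is in `G_dRB(M ⊕ N)`. If the points of
`M` generate a submodule over `End(A)` whose intersection with `Γ` consists of torsion points, then by
(e) `K ∩ U` is mapped onto the quotient of weight `-1` of `U`, so it contains the kernel of `U → G(T(M))`.
This group contains the kernel of `G_mot(M ⊕ N) → G_mot(T(M) ⊕ Gr^W M ⊕ N)`. Therefore **the equality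
`G_dRB = G_mot` for `M ⊕ N` is equivalent to the equality for `T(M) ⊕ h_1(A) ⊕ N`** (if `ℚ(1)` is
in `⟨N⟩`). In the case (d) `T(M)` is trivial: the conjecture for `M ⊕ N` is equivalent to the conjecture
for `h_1(A) ⊕ N`. By (c) this holds for **all** 1-motives `M` over products of powers of simple abelian
varieties outside of finitely many isogeny classes which depend only on `N`, at most `d² / 2`, and without
exception if `2 dim A > d²`; and by (b) for the exceptional classes the exceptional points are of bounded
rank over `End(A)`.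

(A 1-motive over a product of powers of the `A i` is a subquotient of a sum of 1-motives over the `A i`.)
The motive `N` may be of any kind, for example `H^i(X, D)` for a variety `X` of general type. The bound
in (b) is sharp up to the factor 4: for `V = H_1` of a generic 1-motive `[ℤ^n → A^r]` the `n * r` points
are exceptional, `d = n + 2 g r`, and for `n = 2 g r` the dimension in (b) is `2 g n r = d² / 4`.

## Relation to the files of the library

* `UnipotentRadical` (by helper208, MP_5d33ca_ag) shows that `U` is in `G` if there is no other motive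
  (`d = 0`), for one 1-motive. The starting file `OneMotivesMumfordTate` shows `MT(M) ⊆ G` for abelian
  varieties which are determined by their endomorphisms, also without other motives.
* `SplitOneMotives` (by the same author, MP_5d33ca_ag) shows that the whole group `Hg(M)` splits off, but
  only for abelian varieties of spin type (elliptic curves without complex multiplication,
  Kuga-Satake varieties), outside of an exceptional set. The case treated here is complementary: all
  abelian varieties (for example with complex multiplication, where the Hodge group is a torus and may be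
  a quotient of the group of `N`), but only the unipotent part, and with information on the exceptional
  abelian varieties as well.

## Proof

Let `𝔩` be the Lie algebra generated by the components over `ℚ` of the logarithmic derivatives of the
periods of **all** de Rham-Betti structures at once, for the derivations of `ℂ` over `ℚ̄`. It acts on all
structures, and its image is contained in the Lie algebra of `G_dRB`. An algebraic point of `A` gives a
cocycle `𝔩 → H_1(A)`. By the theorem of Wüstholz (in the form of `main2`) a combination over `End(A)` of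
such cocycles is zero only if the combination of the points is a torsion point. Let `Γ` be the space of
the combinations of points whose cocycles factor through the action of `𝔩` on `V`, `A` and `ℚ(1)`. The
maps from this finite-dimensional space form a space of finite dimension; this gives (a). Let `𝔨` be the
ideal of `𝔩` which acts trivially on `V` and `A`. The values of the cocycles of the points on `𝔨` form a
subspace of `H_1(A)^(n + s)` which is stable under `𝔩`; since the action is semisimple, and the
equivariant maps are endomorphisms of `A`, it is given by linear relations, and by definition these are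
the relations modulo `Γ`. The exponentials of the elements of `𝔨` give (e), and with the brackets we get
(d). For (b) we compare with the ideal which acts trivially on the `A i`: its image in `End(V)` is mapped
onto `⊕ H_1(B i)`.

For several abelian varieties we use: an ideal `𝔪` of `𝔩`, acting trivially on `A` and `ℚ(1)`, with an
equivariant map `𝔪 → H_1(A)` which factors through the action on another abelian variety `A'`, is mapped
to zero (`vanish_step`). Indeed there is an element `y` of `𝔩` with nonzero action on `ℚ(1)` which acts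
on `A'` by a central element; by equivariance it annihilates the image of `𝔪`, which is the homology of
an abelian subvariety; but `y` multiplies the polarization by a number `≠ 0`.
-/

open Module Matrix Pool.Agent.Y102 Pool.Agent.R917.OM Pool.Agent.R917.BX Pool.Agent.W516.DR
  Pool.Agent.H204R3.GP

noncomputable section

namespace Pool.Agent.Results.MP_ae0f86_nt.GenericPoints

/-! ### de Rham-Betti structures, 1-motives and their periods -/

/-- A de Rham-Betti structure of rank `d` over `ℚ̄`: the Betti side is the dual of `ℚ ^ d`, and the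
de Rham side is given by a basis, whose elements are considered as linear functions on `ℚ ^ d` with
complex values (the periods are the values on the rational vectors); the independence means that the
comparison is an isomorphism. -/
structure Structure (d : ℕ) where
  /-- the basis of the de Rham side -/
  dR : Fin d → ((Fin d → ℚ) →ₗ[ℚ] ℂ)
  indep : LinearIndependent ℂ dR

section Motives

variable {g n s : ℕ} (A : AbVarG g)

/-- The basis of the Betti realization of the 1-motive: the basis `λ_j` of the lattice of `A`, the
basis `γ_l` of `H_1(G_m^s)`, the basis `e_i` of `ℤ^n`. -/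
abbrev Betti (g n s : ℕ) : Type := Fin (2 * g) ⊕ (Fin s ⊕ Fin n)

/-- The basis of the de Rham cohomology of the 1-motive: the invariant differentials `d z_k` and the
differentials of the second kind `d h_k` on `A`, the invariant differentials of the third kind `ω_l`
on the semiabelian variety, and a basis for `ℤ^n`. -/
abbrev DeRham (g n s : ℕ) : Type := (Fin g ⊕ Fin g) ⊕ (Fin s ⊕ Fin n)

/-- The integral of the second kind `h_k = ∂ k (log θ 0)`, with the value zero at the origin. -/
def second (k : Fin g) (z : Fin g → ℂ) : ℂ := pd k (A.θ 0) z / A.θ 0 z - pd k (A.θ 0) 0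

/-- The comparison isomorphism of the 1-motive. The rows are the Betti side. -/
def periodMatrix (u : Fin n → Fin g → ℂ) (v : Fin s → Fin g → ℂ) (ℓ : Fin n → Fin s → ℂ) :
    Matrix (Betti g n s) (DeRham g n s) ℂ := Matrix.of fun r c =>
  match r, c with
  | Sum.inl j, Sum.inl (Sum.inl k) => A.lam j k
  | Sum.inl j, Sum.inl (Sum.inr k) => A.η j k
  | Sum.inl j, Sum.inr (Sum.inl l) => ∑ k, (second A k (v l) * A.lam j k - v l k * A.η j k)
  | Sum.inr (Sum.inl l), Sum.inr (Sum.inl l') => if l = l' then 2 * Real.pi * Complex.I else 0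
  | Sum.inr (Sum.inr i), Sum.inl (Sum.inl k) => u i k
  | Sum.inr (Sum.inr i), Sum.inl (Sum.inr k) => second A k (u i)
  | Sum.inr (Sum.inr i), Sum.inr (Sum.inl l) => ℓ i l
  | Sum.inr (Sum.inr i), Sum.inr (Sum.inr i') => if i = i' then 1 else 0
  | _, _ => 0

/-- The part of weight `≤ -1` of the homology, the homology of the semiabelian variety. -/
def W1 (x : Betti g n s → ℂ) : Prop := ∀ i, x (Sum.inr (Sum.inr i)) = 0

/-- The part of weight `≤ -2` of the homology, the homology of the torus. -/
def W2 (x : Betti g n s → ℂ) : Prop :=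
  (∀ j, x (Sum.inl j) = 0) ∧ ∀ i, x (Sum.inr (Sum.inr i)) = 0

/-- The matrix `x` acts trivially on the graded pieces of the weight filtration of the homology of the
1-motive (vectors are rows). -/
structure IsUnipotent (x : Matrix (Betti g n s) (Betti g n s) ℂ) : Prop where
  weight_zero : ∀ w : Betti g n s → ℂ, W1 (w ᵥ* x - w)
  weight_one : ∀ w : Betti g n s → ℂ, W1 w → W2 (w ᵥ* x - w)
  weight_two : ∀ w : Betti g n s → ℂ, W2 w → w ᵥ* x = w

/-- The linear map `f` of the rational homology is an endomorphism of the abelian variety `A`, up to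
isogeny, and `F` is the linear map of the tangent space: it respects the Hodge structure and the de Rham
structure over `ℚ̄`. -/
def IsEndo (f : Module.End ℚ A.toAbVar.H1) (F : (Fin g → ℂ) →ₗ[ℂ] (Fin g → ℂ)) : Prop :=
  (∀ w, A.toAbVar.per (f w) = F (A.toAbVar.per w)) ∧ IsDeRhamBettiEnd QBar A.dR f

/-- The space `Γ` is stable under the endomorphisms of `A`. -/
def EndStable (Γ : Submodule ℚ (Fin g → ℂ)) : Prop :=
  ∀ (f : Module.End ℚ A.toAbVar.H1) (F : (Fin g → ℂ) →ₗ[ℂ] (Fin g → ℂ)), IsEndo A f F →
    ∀ v ∈ Γ, F v ∈ Γ

/-- The vectors in the tangent space which give torsion points: the span over `ℚ` of the lattice. -/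
def torsion : Submodule ℚ (Fin g → ℂ) := LinearMap.range A.toAbVar.per

/-- The points given by the vectors `v i` are linearly independent over `End(A)` modulo the subspace
`Γ` of the tangent space. -/
def Independent {ι : Type} [Fintype ι] (v : ι → Fin g → ℂ) (Γ : Submodule ℚ (Fin g → ℂ)) : Prop :=
  ∀ (f : ι → Module.End ℚ A.toAbVar.H1) (F : ι → (Fin g → ℂ) →ₗ[ℂ] (Fin g → ℂ)),
    (∀ i, IsEndo A (f i) (F i)) → ∑ i, F i (v i) ∈ Γ → ∀ i, f i = 0

/-- The map of `H_1(A, ℂ)` given by an endomorphism of the rational homology. -/
def complexify (f : Module.End ℚ A.toAbVar.H1) : (Fin (2 * g) → ℂ) →ₗ[ℂ] (Fin (2 * g) → ℂ) :=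
  LinearMap.pi fun j' => ∑ j, ((f (Pi.single j 1) j' : ℚ) : ℂ) • LinearMap.proj j

/-- The vectors `z = (z_i)`, `z_i ∈ H_1(A, ℂ)`, which satisfy the relations `∑ i, f_i (z_i) = 0` for all
relations `∑ i, f_i (v_i) ∈ Γ` with endomorphisms `f_i` between the points given by the `v_i`
modulo `Γ`. -/
def Relations {ι : Type} [Fintype ι] (v : ι → Fin g → ℂ) (Γ : Submodule ℚ (Fin g → ℂ)) :
    Submodule ℂ (ι → Fin (2 * g) → ℂ) where
  carrier := {z | ∀ (f : ι → Module.End ℚ A.toAbVar.H1) (F : ι → (Fin g → ℂ) →ₗ[ℂ] (Fin g → ℂ)),
    (∀ i, IsEndo A (f i) (F i)) → ∑ i, F i (v i) ∈ Γ → ∑ i, complexify A (f i) (z i) = 0}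
  zero_mem' := fun f F _ _ => Finset.sum_eq_zero fun i _ => map_zero _
  add_mem' := by
    intro z z' hz hz' f F hf hΓ
    have h1 := hz f F hf hΓ
    have h2 := hz' f F hf hΓ
    simp only [Pi.add_apply, map_add, Finset.sum_add_distrib]
    rw [h1, h2, add_zero]
  smul_mem' := by
    intro c z hz f F hf hΓ
    have h1 := hz f F hf hΓ
    simp only [Pi.smul_apply, map_smul, ← Finset.smul_sum]
    rw [h1, smul_zero]

/-- The Riemann form of the polarization on the lattice, in terms of the periods (Legendre
relation). -/
def riemann (i j : Fin (2 * g)) : ℂ :=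
  (∑ k, (A.η i k * A.lam j k - A.η j k * A.lam i k)) / (2 * Real.pi * Complex.I)

/-- The part of weight `-1` of the matrix `x` is given by `z`: modulo weight `-2`, `x` maps `e_i` to
`e_i + z_i`, and it maps `λ_j` to `λ_j + ∑ l, ω(z_l, λ_j) γ_l`, with the Riemann form `ω`. -/
def HasWeightOne (x : Matrix (Betti g n s) (Betti g n s) ℂ) (z : Fin n ⊕ Fin s → Fin (2 * g) → ℂ) :
    Prop :=
  (∀ i j, x (Sum.inr (Sum.inr i)) (Sum.inl j) = z (Sum.inl i) j) ∧
    ∀ l j, x (Sum.inl j) (Sum.inr (Sum.inl l)) = ∑ j', z (Sum.inr l) j' * riemann A j' j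

/-- The abelian variety `A` is simple: all endomorphisms up to isogeny, except zero, are injective on the
rational homology. -/
def IsSimple : Prop :=
  ∀ (f : Module.End ℚ A.toAbVar.H1) (F : (Fin g → ℂ) →ₗ[ℂ] (Fin g → ℂ)), IsEndo A f F →
    f = 0 ∨ Function.Injective f

end Motives

/-- There are no nonzero homomorphisms from `A` to `A'`: linear maps of the rational homology which
respect the Hodge structures and the de Rham structures. -/
def NoHom {g g' : ℕ} (A : AbVar g) (A' : AbVar g') : Prop :=
  ∀ f : A.H1 →ₗ[ℚ] A'.H1,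
    (∃ Q : (Fin g → ℂ) →ₗ[ℂ] (Fin g' → ℂ), ∀ w, A'.per (f w) = Q (A.per w)) →
    (∃ a : (Fin g' ⊕ Fin g') → (Fin g ⊕ Fin g) → QBar, ∀ p w,
      A'.dR p (f w) = ∑ q, algebraMap QBar ℂ (a p q) * A.dR q w) → f = 0

/-- The data of a 1-motive `M = [ℤ ^ n → G]` with abelian part `A`: the vectors `u i` give algebraic
points of `A`, the vectors `v l` give algebraic points of the dual abelian variety (by means of the
polarization), that is, the extension `G` of `A` by `G_m ^ s`, and `ℓ` are the logarithms of the images of
the basis of `ℤ ^ n` in `G`. The vectors are chosen outside of the divisor of `θ 0`. The 1-motive is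
defined over `ℚ̄` if the numbers `exp (ℓ i l) / (θ 0 (u i - v l) / (θ 0 (u i) * θ 0 (- v l)) *
exp (∑ k, h_k (v l) * u i k))` are algebraic; we do not need this condition, so the numbers `ℓ` may be
arbitrary. -/
structure OneMotive {g : ℕ} (A : AbVarG g) where
  /-- the rank of `ℤ ^ n` -/
  n : ℕ
  /-- the dimension of the torus -/
  s : ℕ
  u : Fin n → Fin g → ℂ
  v : Fin s → Fin g → ℂ
  ℓ : Fin n → Fin s → ℂ
  point : ∀ i, IsPoint A.toAbVar (u i)
  dual : ∀ l, IsPoint A.toAbVar (v l)

/-- The points of `A` and of the dual abelian variety. -/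
def OneMotive.points {g : ℕ} {A : AbVarG g} (M : OneMotive A) : Fin M.n ⊕ Fin M.s → Fin g → ℂ :=
  Sum.elim M.u M.v

/-! ### Algebraic groups which contain the periods -/

/-- A subgroup of `GL_R(ℂ)` defined by polynomials with rational coefficients. -/
def IsAlgebraicSubgroup {R : Type} [Fintype R] [DecidableEq R] (G : Subgroup (GL R ℂ)) : Prop :=
  ∃ S : Set (MvPolynomial (R × R) ℚ), ∀ x : GL R ℂ, x ∈ G ↔
    ∀ p ∈ S, MvPolynomial.aeval (fun b : R × R => (x : Matrix R R ℂ) b.1 b.2) p = 0

/-- The matrix `P` belongs to a torsor `G · T⁻¹` of `G` defined over `ℚ̄`. -/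
def HasPoint {R C : Type} [Fintype R] [DecidableEq R] [Fintype C] (P : Matrix R C ℂ)
    (G : Subgroup (GL R ℂ)) : Prop :=
  ∃ T : Matrix C R ℂ, (∀ i j, IsAlgebraic ℚ (T i j)) ∧ ∃ x ∈ G, (x : Matrix R R ℂ) = P * T

/-- The matrix `y` is contained in all algebraic groups `G` over `ℚ` which have a torsor over `ℚ̄` with
the point `P`. -/
def InPeriodGroup {R C : Type} [Fintype R] [DecidableEq R] [Fintype C] (P : Matrix R C ℂ)
    (y : Matrix R R ℂ) : Prop :=
  ∀ G : Subgroup (GL R ℂ), IsAlgebraicSubgroup G → HasPoint P G → ∃ x ∈ G, (x : Matrix R R ℂ) = y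

/-- The matrix of periods of `V`. -/
def periodsV {d : ℕ} (V : Structure d) : Matrix (Fin d) (Fin d) ℂ :=
  Matrix.of fun p q => V.dR q (Pi.single p 1)

section Family

variable {K : Type} [Fintype K] [DecidableEq K] {g : K → ℕ} {A : ∀ a, AbVarG (g a)}
  (M : ∀ a, OneMotive (A a)) {d : ℕ} (V : Structure d)

/-- The basis of the Betti realization of `⊕ M a ⊕ V`. -/
abbrev Row (d : ℕ) : Type := (Σ a, Betti (g a) (M a).n (M a).s) ⊕ Fin d

/-- The basis of the de Rham realization of `⊕ M a ⊕ V`. -/
abbrev Col (d : ℕ) : Type := (Σ a, DeRham (g a) (M a).n (M a).s) ⊕ Fin d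

/-- The matrix of the comparison isomorphism of `⊕ M a ⊕ V`. -/
def periods : Matrix (Row M d) (Col M d) ℂ :=
  fromBlocks (blockDiagonal' fun a => periodMatrix (A a) (M a).u (M a).v (M a).ℓ) 0 0 (periodsV V)

/-- The matrix `⊕ x a` of `GL(⊕ H_B(M a))`, extended by the trivial action on `V`, is contained in all
algebraic groups over `ℚ` which have a torsor over `ℚ̄` with the comparison isomorphism
of `⊕ M a ⊕ V`. -/
def SplitsOff (x : ∀ a, Matrix (Betti (g a) (M a).n (M a).s) (Betti (g a) (M a).n (M a).s) ℂ) :
    Prop :=
  InPeriodGroup (periods M V) (fromBlocks (blockDiagonal' x) 0 0 1)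

end Family

/-! ### The properties of the exceptional points -/

section Statement

variable {I : Type} {g : I → ℕ} (A : ∀ i, AbVarG (g i)) {d : ℕ} (V : Structure d)
  (Γ : ∀ i, Submodule ℚ (Fin (g i) → ℂ))

/-- Property (a): `Γ` is of finite dimension, contains the torsion points and is stable under the
endomorphisms. -/
structure IsExceptional {g : ℕ} (A : AbVarG g) (Γ : Submodule ℚ (Fin g → ℂ)) : Prop where
  finite : Module.Finite ℚ Γ
  torsion_le : torsion A ≤ Γ
  stable : EndStable A Γ

/-- Property (b): the exceptional points generate only abelian subvarieties of small dimension. -/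
def FewPoints (d : ℕ) : Prop :=
  ∀ S : Finset I, (∀ i ∈ S, ∀ j ∈ S, i ≠ j → NoHom (A i).toAbVar (A j).toAbVar) →
    ∀ (m : I → ℕ) (v : ∀ i, Fin (m i) → Fin (g i) → ℂ), (∀ i ∈ S, ∀ k, v i k ∈ Γ i) →
      ∑ i ∈ S, Module.finrank ℂ (Relations (A i) (v i) (torsion (A i))) ≤ d * d

/-- Property (c): there are only few simple abelian varieties which have exceptional points other than
the torsion points. -/
def FewExceptions (d : ℕ) : Prop :=
  ∀ S : Finset I, (∀ i ∈ S, ∀ j ∈ S, i ≠ j → NoHom (A i).toAbVar (A j).toAbVar) →
    (∀ i ∈ S, IsSimple (A i)) → (∀ i ∈ S, Γ i ≠ torsion (A i)) → ∑ i ∈ S, 2 * g i ≤ d * d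

/-- Property (d): if the points of the 1-motives are independent modulo exceptional points then all
unipotent elements split off. -/
def GenericSplit : Prop :=
  ∀ {K : Type} [Fintype K] [DecidableEq K] (e : K → I),
    (∀ a b, a ≠ b → NoHom (A (e a)).toAbVar (A (e b)).toAbVar) →
    ∀ M : ∀ a, OneMotive (A (e a)), (∀ a, Independent (A (e a)) (M a).points (Γ (e a))) →
      ∀ x : ∀ a, Matrix (Betti (g (e a)) (M a).n (M a).s) (Betti (g (e a)) (M a).n (M a).s) ℂ,
        (∀ a, IsUnipotent (x a)) → SplitsOff M V x

/-- Property (e): for arbitrary points, all vectors which satisfy the relations between the points modulo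
exceptional points are the parts of weight `-1` of unipotent elements which split off. -/
def RelationsSplit : Prop :=
  ∀ {K : Type} [Fintype K] [DecidableEq K] (e : K → I),
    (∀ a b, a ≠ b → NoHom (A (e a)).toAbVar (A (e b)).toAbVar) →
    ∀ (M : ∀ a, OneMotive (A (e a)))
      (z : ∀ a, Fin (M a).n ⊕ Fin (M a).s → Fin (2 * g (e a)) → ℂ),
      (∀ a, z a ∈ Relations (A (e a)) (M a).points (Γ (e a))) →
      ∃ x : ∀ a, Matrix (Betti (g (e a)) (M a).n (M a).s) (Betti (g (e a)) (M a).n (M a).s) ℂ,
        (∀ a, IsUnipotent (x a)) ∧ (∀ a, HasWeightOne (A (e a)) (x a) (z a)) ∧ SplitsOff M V x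

end Statement

/-! ### Proofs -/

section Proofs

open Pool.Agent.N192.GC Pool.Agent.N208.UR

variable {g n s d : ℕ} {A : AbVarG g}

/-- the data of the 1-motive -/
def dat (A : AbVarG g) (u : Fin n → Fin g → ℂ) (v : Fin s → Fin g → ℂ) (ℓ : Fin n → Fin s → ℂ) :
    Dt g n s where
  P := fun p => hh A (Sum.elim u v p)
  ℓ := ℓ

theorem per_eb (j : Fin (2 * g)) (k : Fin g) : A.dR (Sum.inl k) (eb A.toAbVar j) = A.lam j k := by
  change A.per (Pi.single j 1) k = _
  unfold AbVar.per
  rw [Fintype.linearCombination_apply_single, one_smul]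

theorem eta_eb (j : Fin (2 * g)) (k : Fin g) : A.dR (Sum.inr k) (eb A.toAbVar j) = A.η j k := by
  change A.eta (Pi.single j 1) k = _
  unfold AbVar.eta
  rw [Fintype.linearCombination_apply_single, one_smul]

theorem periodMatrix_eq (u : Fin n → Fin g → ℂ) (v : Fin s → Fin g → ℂ)
    (ℓ : Fin n → Fin s → ℂ) : periodMatrix A u v ℓ = pmat A.toAbVar (dat A u v ℓ) := by
  ext r c
  rcases r with j | l | i <;> rcases c with (k | k) | l' | i' <;>
    simp [periodMatrix, pmat, dat, per_eb, eta_eb, thd, tau, Pool.Agent.N192.GC.hh, second]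

theorem single_row (M : Matrix (Betti g n s) (Betti g n s) ℂ) (r : Betti g n s) :
    (Pi.single r (1 : ℂ) : Betti g n s → ℂ) ᵥ* M = M r := by
  rw [Matrix.single_one_vecMul]
  rfl

theorem IsUnipotent.fl {x : Matrix (Betti g n s) (Betti g n s) ℂ} (h : IsUnipotent x) :
    x - 1 ∈ Fl (lev g n s) 1 := by
  intro r r' hr
  rw [Matrix.sub_apply]
  rcases r with j | l | i
  · have h1 := h.weight_one (Pi.single (Sum.inl j) 1) fun i => by
      rw [Pi.single_eq_of_ne (by simp)]
    rw [single_row] at h1
    rcases r' with j' | l' | i'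
    · have h2 := h1.1 j'
      rw [Pi.sub_apply] at h2
      rw [Matrix.one_apply]
      rw [Pi.single_apply] at h2
      simpa [eq_comm] using h2
    · simp [lev] at hr
    · have h2 := h1.2 i'
      rw [Pi.sub_apply, Pi.single_eq_of_ne (by simp)] at h2
      rw [Matrix.one_apply_ne (by simp)]
      exact h2
  · have h1 := congrFun (h.weight_two (Pi.single (Sum.inr (Sum.inl l)) 1) ⟨fun j => by
      rw [Pi.single_eq_of_ne (by simp)], fun i => by
      rw [Pi.single_eq_of_ne (by simp)]⟩) r'
    rw [single_row] at h1
    rw [h1, Matrix.one_apply, Pi.single_apply]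
    simp [eq_comm]
  · have h1 := h.weight_zero (Pi.single (Sum.inr (Sum.inr i)) 1)
    rw [single_row] at h1
    rcases r' with j' | l' | i'
    · simp [lev] at hr
    · simp [lev] at hr
    · have h2 := h1 i'
      rw [Pi.sub_apply, Pi.single_apply] at h2
      rw [Matrix.one_apply]
      simpa [eq_comm] using h2

theorem IsUnipotent.of_fl {x : Matrix (Betti g n s) (Betti g n s) ℂ}
    (h : x - 1 ∈ Fl (lev g n s) 1) : IsUnipotent x := by
  have h1 : ∀ w : Betti g n s → ℂ, w ᵥ* x - w = w ᵥ* (x - 1) := by
    intro w
    rw [Matrix.vecMul_sub, Matrix.vecMul_one]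
  have h2 : ∀ (w : Betti g n s → ℂ) (r : Betti g n s), (w ᵥ* (x - 1)) r = ∑ q, w q * (x - 1) q r :=
    fun w r => rfl
  refine ⟨fun w i => ?_, fun w hw => ⟨fun j => ?_, fun i => ?_⟩, fun w hw => ?_⟩
  · rw [h1, h2]
    refine Finset.sum_eq_zero fun q _ => ?_
    rw [h q (Sum.inr (Sum.inr i)) (by rcases q with j | l | i' <;> simp [lev]), mul_zero]
  · rw [h1, h2]
    refine Finset.sum_eq_zero fun q _ => ?_
    rcases q with j' | l | i'
    · rw [h (Sum.inl j') (Sum.inl j) (by simp [lev]), mul_zero]
    · rw [h (Sum.inr (Sum.inl l)) (Sum.inl j) (by simp [lev]), mul_zero]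
    · rw [hw i', zero_mul]
  · rw [h1, h2]
    refine Finset.sum_eq_zero fun q _ => ?_
    rw [h q (Sum.inr (Sum.inr i)) (by rcases q with j | l | i' <;> simp [lev]), mul_zero]
  · rw [← sub_eq_zero, h1]
    funext r
    rw [h2]
    refine Finset.sum_eq_zero fun q _ => ?_
    rcases q with j' | l | i'
    · rw [hw.1 j', zero_mul]
    · rw [h (Sum.inr (Sum.inl l)) r (by rcases r with j | l | i' <;> simp [lev]), mul_zero]
    · rw [hw.2 i', zero_mul]

theorem exists_GL {x : Matrix (Betti g n s) (Betti g n s) ℂ} (h : x - 1 ∈ Fl (lev g n s) 1) :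
    ∃ y : GL (Betti g n s) ℂ, (y : Matrix (Betti g n s) (Betti g n s) ℂ) = x := by
  have h3 : (x - 1) * (x - 1) * (x - 1) = 0 :=
    Fl_three (k := 3) lev_le (by norm_num) (Fl_mul (Fl_mul h h) h)
  have h4 : IsNilpotent (x - 1) := ⟨3, by rw [pow_succ, pow_two, h3]⟩
  have h5 : IsUnit x := by
    have h6 := h4.isUnit_one_add
    rwa [add_sub_cancel] at h6
  obtain ⟨y, hy⟩ := h5
  exact ⟨y, hy⟩

/-- endomorphisms -/
theorem isEndo_EE (e : EE A) : IsEndo A e.1.1 e.1.2 :=
  ⟨e.2.1, A.toAbVar.mem_EA.1 e.2.2⟩

/-- endomorphisms -/
def toEE {f : Module.End ℚ A.toAbVar.H1} {F : (Fin g → ℂ) →ₗ[ℂ] (Fin g → ℂ)} (h : IsEndo A f F) :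
    EE A := ⟨(f, F), h.1, A.toAbVar.mem_EA.2 h.2⟩

theorem per_one {K : Type} [Fintype K] [DecidableEq K] {g : K → ℕ} {A : ∀ a, AbVarG (g a)}
    (M : ∀ a, OneMotive (A a)) (V : Structure d) : periods M V =
      J.per1 (fun a => (A a).toAbVar) (fun a => dat (A a) (M a).u (M a).v (M a).ℓ)
        ⟨V.dR, V.indep⟩ := by
  unfold periods J.per1
  have h1 : (fun a => periodMatrix (A a) (M a).u (M a).v (M a).ℓ) =
      fun a => pmat (A a).toAbVar (dat (A a) (M a).u (M a).v (M a).ℓ) :=
    funext fun a => periodMatrix_eq _ _ _
  rw [h1]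
  rfl

theorem riemann_eq (i j : Fin (2 * g)) :
    riemann A i j = ((A.toAbVar.om (eb A.toAbVar i) (eb A.toAbVar j) : ℚ) : ℂ) := by
  rw [A.toAbVar.om_pairing]
  unfold riemann
  congr 1
  refine Finset.sum_congr rfl fun k _ => ?_
  have h1 : ∀ i, A.toAbVar.eta (eb A.toAbVar i) k = A.η i k := fun i => eta_eb i k
  have h2 : ∀ i, A.toAbVar.per (eb A.toAbVar i) k = A.lam i k := fun i => per_eb i k
  rw [h1, h1, h2, h2]

theorem complexify_apply (f : Module.End ℚ A.toAbVar.H1) (z : Fin (2 * g) → ℂ) (j' : Fin (2 * g)) :
    complexify A f z j' = ∑ j, z j * ((f (Pi.single j 1) j' : ℚ) : ℂ) := by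
  unfold complexify
  rw [LinearMap.pi_apply, LinearMap.sum_apply]
  refine Finset.sum_congr rfl fun j _ => ?_
  rw [LinearMap.smul_apply, LinearMap.proj_apply, smul_eq_mul, mul_comm]

theorem map_ext {f : Module.End ℚ A.toAbVar.H1} (w : A.toAbVar.H1) (j' : Fin (2 * g)) :
    f w j' = ∑ j, w j * f (Pi.single j 1) j' := by
  have h2 : w = ∑ j, w j • (Pi.single j 1 : A.toAbVar.H1) := by
    funext k
    rw [Finset.sum_apply]
    simp [Pi.single_apply]
  conv_lhs => rw [h2, map_sum, Finset.sum_apply]
  refine Finset.sum_congr rfl fun j _ => ?_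
  rw [map_smul, Pi.smul_apply, smul_eq_mul]

/-- the dimension of the complex space of relations -/
theorem finrank_le {m : ℕ} (v : Fin m → Fin g → ℂ) :
    Module.finrank ℂ (Relations A v (torsion A)) ≤ Module.finrank ℚ (hullQ A v) := by
  classical
  let ρ : (Fin m → A.toAbVar.H1) → (Fin m → Fin (2 * g) → ℂ) := fun z i j => ((z i j : ℚ) : ℂ)
  let b := Module.finBasis ℚ (hullQ A v)
  have h1 : Relations A v (torsion A) ≤ Submodule.span ℂ (Set.range fun k => ρ (b k)) := by
    intro z hz
    obtain ⟨S, hS⟩ := exists_coordsC (fun q : Fin m × Fin (2 * g) => z q.1 q.2)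
    have hzb : ∀ a, (fun i j => (Basis.ofVectorSpace ℚ ℂ).coord a (z i j) : Fin m → A.toAbVar.H1) ∈
        hullQ A v := by
      intro a e he
      funext j'
      have h2 := congrFun (hz (fun i => (e i).1.1) (fun i => (e i).1.2) (fun i => isEndo_EE _) he) j'
      have h3 := congrArg ((Basis.ofVectorSpace ℚ ℂ).coord a) h2
      rw [Pi.zero_apply, map_zero, Finset.sum_apply, map_sum] at h3
      rw [Pi.zero_apply, Finset.sum_apply]
      refine Eq.trans (Finset.sum_congr rfl fun i _ => ?_) h3
      rw [complexify_apply, map_ext, map_sum]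
      refine Finset.sum_congr rfl fun j _ => ?_
      have h4 : ∀ (c : ℂ) (q : ℚ), (Basis.ofVectorSpace ℚ ℂ).coord a (c * (q : ℂ)) =
          (Basis.ofVectorSpace ℚ ℂ).coord a c * q := by
        intro c q
        rw [mul_comm, ← Rat.smul_def, map_smul, smul_eq_mul, mul_comm]
      rw [h4]
    have h5 : z = ∑ a ∈ S, (Basis.ofVectorSpace ℚ ℂ a : ℂ) •
        ρ (fun i j => (Basis.ofVectorSpace ℚ ℂ).coord a (z i j)) := by
      funext i j
      rw [Finset.sum_apply, Finset.sum_apply]
      have h6 := hS (i, j)
      simp only at h6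
      refine h6.trans (Finset.sum_congr rfl fun a _ => ?_)
      rw [Pi.smul_apply, Pi.smul_apply, smul_eq_mul, mul_comm]
    rw [h5]
    refine Submodule.sum_mem _ fun a _ => Submodule.smul_mem _ _ ?_
    have h7 := b.sum_repr ⟨_, hzb a⟩
    have h8 : ρ (fun i j => (Basis.ofVectorSpace ℚ ℂ).coord a (z i j)) =
        ∑ k, ((b.repr ⟨_, hzb a⟩ k : ℚ) : ℂ) • ρ (b k) := by
      funext i j
      have h9 := congrFun (congrFun (congrArg (fun w : hullQ A v => (w : Fin m → A.toAbVar.H1)) h7)
        i) j
      rw [Submodule.coe_sum, Finset.sum_apply, Finset.sum_apply] at h9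
      rw [Finset.sum_apply, Finset.sum_apply]
      refine Eq.trans (congrArg (fun q : ℚ => (q : ℂ)) h9.symm) ?_
      rw [Rat.cast_sum]
      refine Finset.sum_congr rfl fun k _ => ?_
      rw [Submodule.coe_smul, Pi.smul_apply, Pi.smul_apply, smul_eq_mul, Rat.cast_mul]
      rfl
    rw [h8]
    exact Submodule.sum_mem _ fun k _ => Submodule.smul_mem _ _ (Submodule.subset_span ⟨k, rfl⟩)
  refine (Submodule.finrank_mono h1).trans ((finrank_range_le_card _).trans (le_of_eq ?_))
  rw [Fintype.card_fin]

/-- simple abelian varieties -/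
theorem relations_top (hA : IsSimple A) {v : Fin g → ℂ} (hv : v ∉ torsion A) :
    Relations A (fun _ : Fin 1 => v) (torsion A) = ⊤ := by
  rw [eq_top_iff]
  intro z _ f F hf hΓ
  rw [Fin.sum_univ_one] at hΓ ⊢
  rcases hA (f 0) (F 0) (hf 0) with h0 | hinj
  · rw [h0]
    funext j'
    rw [complexify_apply]
    simp
  · exfalso
    have hsur : Function.Surjective (f 0) := LinearMap.injective_iff_surjective.1 hinj
    obtain ⟨w, hw⟩ := hΓ
    obtain ⟨w', rfl⟩ := hsur w
    have h1 : ∀ w, F 0 (A.toAbVar.per w) = A.toAbVar.per (f 0 w) := fun w => ((hf 0).1 w).symm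
    have h2 : Function.Surjective (F 0) := by
      rw [← LinearMap.range_eq_top, eq_top_iff]
      intro y _
      have h3 : y = ∑ j, ((A.lam.repr y j : ℝ) : ℂ) • A.lam j := by
        conv_lhs => rw [← A.lam.sum_repr y]
        exact Finset.sum_congr rfl fun j _ => (Complex.coe_smul _ _).symm
      rw [h3]
      refine Submodule.sum_mem _ fun j _ => Submodule.smul_mem _ _ ?_
      obtain ⟨w, hw⟩ := hsur (eb A.toAbVar j)
      refine ⟨A.toAbVar.per w, ?_⟩
      rw [h1, hw]
      funext k
      exact per_eb j k
    have h3 : Function.Injective (F 0) := LinearMap.injective_iff_surjective.2 h2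
    refine hv ⟨w', ?_⟩
    refine h3 ?_
    rw [h1]
    exact hw

end Proofs

open Pool.Agent.N192.GC Pool.Agent.N208.UR in
/-- **The points of abelian varieties and arbitrary motives.** -/
theorem result {I : Type} {g : I → ℕ} (hg : ∀ i, 0 < g i) (A : ∀ i, AbVarG (g i)) {d : ℕ}
    (V : Structure d) : ∃ Γ : ∀ i, Submodule ℚ (Fin (g i) → ℂ),
      (∀ i, IsExceptional (A i) (Γ i)) ∧ FewPoints A Γ d ∧ FewExceptions A Γ d ∧
        GenericSplit A V Γ ∧ RelationsSplit A V Γ := by
  classical
  obtain ⟨VV, hVV⟩ : ∃ VV : Pool.Agent.N192.GP.UU, VV = ⟨d, ⟨V.dR, V.indep⟩⟩ := ⟨_, rfl⟩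
  have hfew : FewPoints A (fun i => Gam (A i) VV ⊔ torsion (A i)) d := by
    intro S hS m v hv
    have h1 : ∀ k : S, ∃ a : Fin (m k.1) → Fin (g k.1) → ℂ, (∀ i, a i ∈ Gam (A k.1) VV) ∧
        Relations (A k.1) (v k.1) (torsion (A k.1)) = Relations (A k.1) a (torsion (A k.1)) := by
      intro k
      choose a ha t ht hat using fun i => Submodule.mem_sup.1 (hv k.1 k.2 i)
      refine ⟨a, ha, ?_⟩
      have h2 : ∀ (F : Fin (m k.1) → (Fin (g k.1) → ℂ) →ₗ[ℂ] (Fin (g k.1) → ℂ))
          (f : Fin (m k.1) → Module.End ℚ (A k.1).toAbVar.H1), (∀ i, IsEndo (A k.1) (f i) (F i)) →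
          (∑ i, F i (v k.1 i) ∈ torsion (A k.1) ↔ ∑ i, F i (a i) ∈ torsion (A k.1)) := by
        intro F f hf
        have h3 : ∑ i, F i (t i) ∈ torsion (A k.1) := Submodule.sum_mem _ fun i _ => by
          obtain ⟨w, hw⟩ := ht i
          exact ⟨f i w, by rw [← hw]; exact (hf i).1 w⟩
        have h4 : ∑ i, F i (v k.1 i) = ∑ i, F i (a i) + ∑ i, F i (t i) := by
          rw [← Finset.sum_add_distrib]
          exact Finset.sum_congr rfl fun i _ => by rw [← map_add, hat]
        rw [h4]
        exact Submodule.add_mem_iff_left _ h3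
      ext z
      exact ⟨fun h f F hf hΓ => h f F hf ((h2 F f hf).2 hΓ),
        fun h f F hf hΓ => h f F hf ((h2 F f hf).1 hΓ)⟩
    choose a ha hav using h1
    have h5 := count_fam (fun k : S => A k.1) VV (fun k l hkl f hf =>
      hS k.1 k.2 l.1 l.2 (fun h => hkl (Subtype.ext h)) f hf.1 hf.2) ha
    rw [← Finset.sum_coe_sort S]
    have h6 : VV.1 = d := by rw [hVV]
    rw [h6] at h5
    refine le_trans (Finset.sum_le_sum fun k _ => ?_) h5
    rw [hav k]
    exact finrank_le (a k)
  refine ⟨fun i => Gam (A i) VV ⊔ torsion (A i), fun i => ⟨?_, le_sup_right, ?_⟩, hfew, ?_, ?_, ?_⟩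
  · have := (Gam_fin (A i) VV).1
    have : Module.Finite ℚ (torsion (A i)) := by
      unfold torsion
      infer_instance
    infer_instance
  · intro f F hf v hv
    obtain ⟨a, ha, t, ⟨w, rfl⟩, rfl⟩ := Submodule.mem_sup.1 hv
    rw [map_add]
    exact Submodule.add_mem _ (le_sup_left (a := Gam (A i) VV) (Gam_stable (A i) VV (toEE hf) ha))
      (le_sup_right (b := torsion (A i)) ⟨f w, hf.1 w⟩)
  · intro S hS hsim hne
    have h1 : ∀ i ∈ S, ∃ v ∈ Gam (A i) VV ⊔ torsion (A i), v ∉ torsion (A i) := by
      intro i hi
      by_contra h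
      push Not at h
      exact hne i hi (le_antisymm h le_sup_right)
    choose! v hv hvt using h1
    have h2 := hfew S hS (fun _ => 1) (fun i _ => v i) (fun i hi _ => hv i hi)
    refine le_trans (Finset.sum_le_sum fun i hi => ?_) h2
    rw [relations_top (hsim i hi) (hvt i hi), finrank_top]
    change 2 * g i ≤ Module.finrank ℂ (Fin 1 → Fin (2 * g i) → ℂ)
    rw [Module.finrank_pi_fintype, Finset.sum_const, Finset.card_univ, Fintype.card_fin, one_smul,
      Module.finrank_fintype_fun_eq_card, Fintype.card_fin]
  · intro K _ _ e hom M hind x hx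
    choose y hy using fun a => exists_GL (hx a).fl
    rintro G hG ⟨T, hT, p, hp, hpT⟩
    rw [per_one] at hpT
    have hpt : ∀ a (q : Fin (M a).n ⊕ Fin (M a).s),
        IsPoint (A (e a)).toAbVar ((M a).points q) := by
      rintro a (i | l)
      · exact (M a).point i
      · exact (M a).dual l
    have h1 := J.unip_in (A := fun a => A (e a))
      (D := fun a => dat (A (e a)) (M a).u (M a).v (M a).ℓ) (V := ⟨V.dR, V.indep⟩)
      (fun a => hg (e a)) (fun z => mem_uJ_of (fun a b hab f hf => hom a b hab f hf.1 hf.2)
        hpt (fun a q => rfl) fun a ε he => by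
          rw [← hVV] at he
          have h1 := hind a (fun i => (ε i).1.1) (fun i => (ε i).1.2) (fun i => isEndo_EE (ε i))
            (le_sup_left (a := Gam (A (e a)) VV) he)
          exact Finset.sum_eq_zero fun q _ => by
            have h2 : (ε q).1.1 = 0 := h1 q
            rw [h2, LinearMap.zero_apply]) (x := y) (fun a => by rw [hy]; exact (hx a).fl)
      hG hT hp hpT
    simp only [hy] at h1
    exact h1
  · intro K _ _ e hom M z hz
    have hpt : ∀ a (q : Fin (M a).n ⊕ Fin (M a).s),
        IsPoint (A (e a)).toAbVar ((M a).points q) := by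
      rintro a (i | l)
      · exact (M a).point i
      · exact (M a).dual l
    obtain ⟨x, h1, h2, h3, h4⟩ := J.unip_in_rel (A := fun a => A (e a))
      (D := fun a => dat (A (e a)) (M a).u (M a).v (M a).ℓ) (V := ⟨V.dR, V.indep⟩)
      (fun a b hab f hf => hom a b hab f hf.1 hf.2) hpt (fun a q => rfl) (z := z)
      fun a ε he j' => by
        rw [← hVV] at he
        have h1 := congrFun (hz a (fun i => (ε i).1.1) (fun i => (ε i).1.2)
          (fun i => isEndo_EE (ε i)) (le_sup_left (a := Gam (A (e a)) VV) he)) j'
        rw [Finset.sum_apply] at h1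
        refine Eq.trans (Finset.sum_congr rfl fun p _ => ?_) h1
        rw [complexify_apply]
    refine ⟨x, fun a => IsUnipotent.of_fl (h1 a), fun a => ⟨h2 a, fun l j => ?_⟩, ?_⟩
    · rw [h3]
      exact Finset.sum_congr rfl fun j' _ => by rw [riemann_eq]
    · rintro G hG ⟨T, hT, p, hp, hpT⟩
      rw [per_one] at hpT
      exact h4 hG hT hp hpT

end Pool.Agent.Results.MP_ae0f86_nt.GenericPoints
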