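import Pool.Agent.N770.Hom3

/-!
# Kummer motives: homogeneous quadratic relations between a fixed period and two variable ones

Let `l_1, ..., l_n` be logarithms of algebraic numbers which are linearly independent over `ℚ`; for
instance `l_1 = 2πi` and logarithms of multiplicatively independent numbers. For a rational vector
`c` we write `log c = ∑ c_j l_j`: the logarithm of an element of the divisible hull of the group `Γ`
generated by the numbers. If `e` is the vector with `log e = 2πi`, then `2πi`, `log c`, `log d` are
the periods of the motive `H^1(G_m, {1, exp (log c), exp (log d)})`. The space `⟨e, c, d⟩ ⊂ ℚ ^ n`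
(for linearly independent `e, c, d`) determines this motive up to isogeny, and it is exceptional if
there is a nonzero homogeneous quadratic relation over `ℚ̄` between the three periods. The period
conjecture says that there are no exceptional spaces. We prove, for an arbitrary vector `e ≠ 0`:

* there are only finitely many exceptional spaces;
* at most `n - 2` of them contain a given plane `⟨e, c⟩`: for fixed `c` the elements `d` belonging
  to the exceptional spaces through `⟨e, c⟩` are linearly independent modulo `⟨e, c⟩`;
* if `n ≤ 4` (for instance for `2πi` and the logarithms of three numbers), there are at most three.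

Here both `c` and `d` vary.

The proof. After division by `log e` the exceptional spaces become the three-dimensional spaces
`⟨1, u, v⟩` over `ℚ̄` with a quadratic relation, in a space for which the conclusion of the strong
six exponentials theorem still holds (it is homogeneous). Then a conic has one or two points at
infinity. Parabolas `v = u ^ 2`: the space `⟨1, u⟩` is, by the six exponentials theorem, the tangent
space at `u` of the algebraic set of all `u` with `u ^ 2` in the space, and so one of finitely many
components. Hyperbolas `v = 1 / u`: a normalised set of such `u` is algebraic and bounded, hence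
finite. The independence for a fixed `c`: the quadratic extensions of `ℚ̄(v)` generated by the
different `u` are different, with the exception of one or two directions. In dimension four, four
exceptional spaces would give too many relations.
-/

set_option autoImplicit false

namespace Pool.Agent.Results.MP_ae0f86_nt.KummerQuadricPlanes

/-- a nonzero homogeneous quadratic relation with algebraic coefficients between `x`, `y`, `z` -/
def Quadric (x y z : ℂ) : Prop :=
  ∃ q : Fin 6 → algebraicClosure ℚ ℂ, q ≠ 0 ∧ q 0 • (x * x) + q 1 • (y * y) + q 2 • (z * z) +
    q 3 • (x * y) + q 4 • (x * z) + q 5 • (y * z) = 0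

/-- the logarithm `∑ c_j l_j` -/
noncomputable def logOf {n : ℕ} (l : Fin n → ℂ) (c : Fin n → ℚ) : ℂ := ∑ j, (c j : ℂ) * l j

/-- the spaces `⟨e, c, d⟩` of dimension three for which the logarithms given by `e`, `c`, `d`
satisfy a homogeneous quadratic relation -/
def exceptional {n : ℕ} (l : Fin n → ℂ) (e : Fin n → ℚ) : Set (Submodule ℚ (Fin n → ℚ)) :=
  {P | ∃ c d : Fin n → ℚ, LinearIndependent ℚ ![e, c, d] ∧ P = Submodule.span ℚ {e, c, d} ∧
    Quadric (logOf l e) (logOf l c) (logOf l d)}

/-- **Main result.** -/
theorem result (n : ℕ) (l : Fin n → ℂ) (halg : ∀ i, IsAlgebraic ℚ (Complex.exp (l i)))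
    (hli : LinearIndependent ℚ l) (e : Fin n → ℚ) (he : e ≠ 0) :
    (exceptional l e).Finite ∧
      (∀ c : Fin n → ℚ, LinearIndependent ℚ ![e, c] →
        {P ∈ exceptional l e | c ∈ P}.encard + 2 ≤ n) ∧
      (n ≤ 4 → (exceptional l e).encard ≤ 3) :=
  ⟨Pool.Agent.N770.exc_finite l halg hli e he,
    fun c hc => Pool.Agent.N770.exc_through l halg hli e c hc,
    fun hn => Pool.Agent.N770.exc_encard l halg hli e he hn⟩

end Pool.Agent.Results.MP_ae0f86_nt.KummerQuadricPlanes
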