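import Pool.Agent.N770.Hom2

/-!
# Kummer motives: homogeneous relations between two fixed periods and a third one

Let `α_0, ..., α_n` be algebraic numbers and let `l_0, ..., l_n` be logarithms of them which are
linearly independent over `ℚ`; for instance `α_0 = 1`, `l_0 = 2πi` and multiplicatively independent
`α_1, ..., α_n`. For `β = ∏ α_j ^ (c_j)`, with rational exponents, the periods of the motive
`H^1(G_m, {1, α_1, β})` are `2πi`, `log α_1` and `log β = ∑ c_j l_j`, and the period conjecture says
that these three numbers are algebraically independent if `α_1`, `β` are multiplicatively independent.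

We consider all `β` of the (divisible hull of the) group generated by the `α_j` together, and ask for
homogeneous relations over `ℚ̄` of degree `D` between the three periods, or more generally between
`l_0`, `l_1` and `log β`, where `l_0`, `l_1` are any two of the logarithms. We prove that for all `c`
outside of finitely many subspaces `W` of `ℚ ^ (n + 1)` there is no such relation, where
`⌊(dim W) ^ 2 / 4⌋ ≤ D`; so `dim W = 3` for `D = 2, 3`, and in general `dim W < 2 √(D + 1)`. Each `W`
contains the two fixed logarithms. The number `n` is arbitrary.

The proof. Put `v = l_1 / l_0` and `u = log β / l_0`. A homogeneous relation becomes a relation of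
degree `D` between `u` and `v`, and `u` runs through the space `V` spanned by the `l_j / l_0`, which
contains `1`. The growth of the powers of this space, `dim V ^ (m + 1) ≥ dim V ^ m + ⌊(dim V)² / 4⌋`,
follows from the hyperplane theorem (linear subgroup theorem of Waldschmidt and Roy), since the latter
is homogeneous (`ProdLe.scaled`). If `V` is algebraic over `ℚ̄(v)` and `⌊(dim V)² / 4⌋ > D`, then a
`u` outside of the finitely many subspaces cut out by intermediate fields and by points at infinity
generates with `v` a field which contains `V`, and in which `V` has only poles bounded by those of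
`u + t v`, a function of degree at most `D`; this contradicts the growth (`cover`). Then one
continues with the smaller subspaces. The rational points of a subspace are controlled by the theorem
of Baker.
-/

set_option autoImplicit false

namespace Pool.Agent.Results.MP_ae0f86_nt.KummerTwoFixedPeriods

/-- `P(x, y, z) = 0` for a nonzero homogeneous polynomial `P` of degree `D` with algebraic
coefficients -/
def Relation (D : ℕ) (x y z : ℂ) : Prop :=
  ∃ P : MvPolynomial (Fin 3) (algebraicClosure ℚ ℂ), P ≠ 0 ∧ P.IsHomogeneous D ∧
    MvPolynomial.aeval ![x, y, z] P = 0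

/-- **Main result.** -/
theorem result (n : ℕ) (l : Fin (n + 2) → ℂ) (halg : ∀ i, IsAlgebraic ℚ (Complex.exp (l i)))
    (hli : LinearIndependent ℚ l) (D : ℕ) :
    ∃ 𝒲 : Set (Submodule ℚ (Fin (n + 2) → ℚ)), 𝒲.Finite ∧
      (∀ W ∈ 𝒲, Pi.single 0 1 ∈ W ∧ Pi.single 1 1 ∈ W ∧ Module.finrank ℚ W ^ 2 / 4 ≤ D) ∧
      ∀ c : Fin (n + 2) → ℚ, Relation D (l 0) (l 1) (∑ j, (c j : ℂ) * l j) → ∃ W ∈ 𝒲, c ∈ W :=
  Pool.Agent.N770.two_fixed l halg hli 0 1 (by simp) D

end Pool.Agent.Results.MP_ae0f86_nt.KummerTwoFixedPeriods
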